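import Pool.Agent.TH381.Tetra

/-!
A lower bound of order `n ^ (5 / 3)` for the number of similar tetrahedra spanned by `n` points
in three-space. The copies are obtained from a cubic piece of the integer lattice by applying the
scaled rotations `x ↦ q x q̄` coming from integer quaternions `q`; the previous bound of order
`n ^ (4 / 3)` used homothetic copies only.
-/

namespace Pool.Agent.Results.MP_36f34d_co.RotatedLatticeCopies

open Pool.Agent.TH381.Tetra

theorem result :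
    (∀ A : Finset (Fin 3 → ℤ), ¬ Coplanar ℝ ((A.map zemb : Finset E3) : Set E3) →
      ∃ c : ℝ, 0 < c ∧ ∃ n₀ : ℕ, ∀ n : ℕ, n₀ ≤ n →
        ∃ P : Finset (Fin 3 → ℤ), P.card = n ∧
          c * (n : ℝ) ^ (5 / 3 : ℝ) ≤ (copies (P.map zemb) (A.map zemb) : ℝ)) ∧
    (∃ c : ℝ, 0 < c ∧ ∃ n₀ : ℕ, ∀ n : ℕ, n₀ ≤ n →
      c * (n : ℝ) ^ (5 / 3 : ℝ) ≤ (f n : ℝ)) :=
  ⟨lattice_copies, f_lower⟩

end Pool.Agent.Results.MP_36f34d_co.RotatedLatticeCopies
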